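import Pool.Agent.W902.C6.Stm

/-!
The number of words of weight `m`.
-/

set_option autoImplicit false

open Pool.Agent.H800R3 Pool.Agent.W902.C6

namespace Pool.Agent.W589.C6.Cnt

/-- the words of weight `m` -/
def Wd : ℕ → Finset (List Lt)
  | 0 => {[]}
  | 1 => {[(true, false)], [(false, true)]}
  | (m + 2) => ((Wd (m + 1)).image (List.cons (true, false)) ∪
      (Wd (m + 1)).image (List.cons (false, true))) ∪ (Wd m).image (List.cons (true, true))

/-- the Pell type recursion -/
def pl : ℕ → ℕ
  | 0 => 1
  | 1 => 2
  | (m + 2) => 2 * pl (m + 1) + pl m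

lemma nz_cons (x : Lt) (l : List Lt) : NZ (x :: l) ↔ x ≠ (false, false) ∧ NZ l := by
  unfold NZ
  simp only [List.mem_cons, forall_eq_or_imp]

lemma weight_cons (x : Lt) (l : List Lt) : weight (x :: l) = wt x + weight l := by
  unfold weight
  simp

lemma weight_nil : weight [] = 0 := rfl

lemma nz_nil : NZ [] := by
  intro x hx
  simp at hx

lemma wt_pos (x : Lt) (h : x ≠ (false, false)) : 1 ≤ wt x := by
  revert x
  decide

lemma weight_zero (l : List Lt) (h : NZ l) (hw : weight l = 0) : l = [] := by
  cases l with
  | nil => rfl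
  | cons x l =>
    rw [nz_cons] at h
    rw [weight_cons] at hw
    have := wt_pos x h.1
    omega

lemma mem_Wd : ∀ (m : ℕ) (l : List Lt), l ∈ Wd m ↔ NZ l ∧ weight l = m := by
  intro m
  induction m using Nat.twoStepInduction with
  | zero =>
    intro l
    rw [Wd, Finset.mem_singleton]
    constructor
    · rintro rfl
      exact ⟨nz_nil, weight_nil⟩
    · rintro ⟨h1, h2⟩
      exact weight_zero l h1 h2
  | one =>
    intro l
    rw [Wd, Finset.mem_insert, Finset.mem_singleton]
    constructor
    · rintro (rfl | rfl)
      · exact ⟨by rw [nz_cons]; exact ⟨by decide, nz_nil⟩, rfl⟩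
      · exact ⟨by rw [nz_cons]; exact ⟨by decide, nz_nil⟩, rfl⟩
    · rintro ⟨h1, h2⟩
      cases l with
      | nil => rw [weight_nil] at h2; omega
      | cons x l =>
        rw [nz_cons] at h1
        rw [weight_cons] at h2
        have h3 := wt_pos x h1.1
        have h4 : l = [] := weight_zero l h1.2 (by omega)
        subst h4
        rw [weight_nil] at h2
        have h5 : wt x = 1 := by omega
        have h6 : ∀ y : Lt, wt y = 1 → y = (true, false) ∨ y = (false, true) := by decide
        rcases h6 x h5 with rfl | rfl
        · left; rfl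
        · right; rfl
  | more m ih1 ih2 =>
    intro l
    rw [Wd]
    simp only [Finset.mem_union, Finset.mem_image]
    constructor
    · rintro ((⟨l', hl', rfl⟩ | ⟨l', hl', rfl⟩) | ⟨l', hl', rfl⟩)
      · rw [ih2] at hl'
        rw [nz_cons, weight_cons]
        refine ⟨⟨by decide, hl'.1⟩, ?_⟩
        have : wt (true, false) = 1 := rfl
        omega
      · rw [ih2] at hl'
        rw [nz_cons, weight_cons]
        refine ⟨⟨by decide, hl'.1⟩, ?_⟩
        have : wt (false, true) = 1 := rfl
        omega
      · rw [ih1] at hl'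
        rw [nz_cons, weight_cons]
        refine ⟨⟨by decide, hl'.1⟩, ?_⟩
        have : wt (true, true) = 2 := rfl
        omega
    · rintro ⟨h1, h2⟩
      cases l with
      | nil => rw [weight_nil] at h2; omega
      | cons x l =>
        rw [nz_cons] at h1
        rw [weight_cons] at h2
        obtain ⟨x1, x2⟩ := x
        cases x1 <;> cases x2
        · exact absurd rfl h1.1
        · left; right
          refine ⟨l, (ih2 l).2 ⟨h1.2, ?_⟩, rfl⟩
          have : wt (false, true) = 1 := rfl
          omega
        · left; left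
          refine ⟨l, (ih2 l).2 ⟨h1.2, ?_⟩, rfl⟩
          have : wt (true, false) = 1 := rfl
          omega
        · right
          refine ⟨l, (ih1 l).2 ⟨h1.2, ?_⟩, rfl⟩
          have : wt (true, true) = 2 := rfl
          omega

lemma card_Wd : ∀ m : ℕ, (Wd m).card = pl m := by
  intro m
  induction m using Nat.twoStepInduction with
  | zero => rfl
  | one => rfl
  | more m ih1 ih2 =>
    rw [Wd, Finset.card_union_of_disjoint, Finset.card_union_of_disjoint,
      Finset.card_image_of_injective _ List.cons_injective,
      Finset.card_image_of_injective _ List.cons_injective,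
      Finset.card_image_of_injective _ List.cons_injective, ih1, ih2, pl]
    · ring
    · rw [Finset.disjoint_left]
      intro l h1 h2
      rw [Finset.mem_image] at h1 h2
      obtain ⟨l1, -, rfl⟩ := h1
      obtain ⟨l2, -, h3⟩ := h2
      simp at h3
    · rw [Finset.disjoint_left]
      intro l h1 h2
      rw [Finset.mem_union, Finset.mem_image, Finset.mem_image] at h1
      rw [Finset.mem_image] at h2
      obtain ⟨l2, -, h3⟩ := h2
      rcases h1 with ⟨l1, -, rfl⟩ | ⟨l1, -, rfl⟩
      · simp at h3
      · simp at h3

lemma al_sq : al ^ 2 = 2 * al + 1 := by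
  unfold al
  have h := Real.sq_sqrt (show (0 : ℝ) ≤ 2 by norm_num)
  nlinarith

lemma two_le_al : 2 ≤ al := by
  unfold al
  have h : (1 : ℝ) ≤ Real.sqrt 2 := by
    rw [Real.one_le_sqrt]
    norm_num
  linarith

lemma al_le : al ≤ 4 := by
  unfold al
  have h : Real.sqrt 2 ≤ 3 := by
    rw [Real.sqrt_le_left (by norm_num)]
    norm_num
  linarith

lemma bound : ∀ m : ℕ, al ^ m / 2 ≤ (pl m : ℝ) ∧ (pl m : ℝ) ≤ al ^ m := by
  intro m
  induction m using Nat.twoStepInduction with
  | zero => simp [pl]; norm_num
  | one =>
    have h1 := two_le_al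
    have h2 := al_le
    simp only [pl, pow_one]
    push_cast
    constructor <;> linarith
  | more m ih1 ih2 =>
    have h : al ^ (m + 2) = 2 * al ^ (m + 1) + al ^ m := by
      rw [pow_add, al_sq]
      ring
    rw [h, pl]
    push_cast
    constructor
    · linarith [ih1.1, ih2.1]
    · linarith [ih1.2, ih2.2]

theorem main : S_cnt := by
  intro m
  refine ⟨Wd m, mem_Wd m, ?_, ?_⟩
  · rw [card_Wd]
    exact (bound m).1
  · rw [card_Wd]
    exact (bound m).2

end Pool.Agent.W589.C6.Cnt
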